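import Pool.Agent.H76.HB.Stmt

/-! FL3: zig-zag with automorphisms. -/

set_option autoImplicit false

open Set Pool.Agent.TK Pool.Agent.ST

namespace Pool.Agent.HB

theorem pf_FL3 {C : Type} (hSC2 : SC2 C) : FL3 C := by
  intro M s A D hsA hDinv hconj
  let Q : List (ℕ × ℕ) → Prop := fun p => (∀ z ∈ p, z.1 ∈ A) ∧
    ∃ g : Equiv.Perm ℕ, IsoH g M M ∧ (∀ z ∈ s, g z = z) ∧ ∀ z ∈ p, z.2 = g z.1
  have hzip : ∀ z ∈ s.zip s, z.1 = z.2 ∧ z.1 ∈ s := by
    intro z hz
    have h1 : ∀ (l : List ℕ), ∀ z ∈ l.zip l, z.1 = z.2 ∧ z.1 ∈ l := by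
      intro l
      induction l with
      | nil => intro z hz; simp at hz
      | cons a l ih =>
        intro z hz
        rw [List.zip_cons_cons, List.mem_cons] at hz
        rcases hz with rfl | hz
        · exact ⟨rfl, List.mem_cons_self⟩
        · exact ⟨(ih z hz).1, List.mem_cons_of_mem _ (ih z hz).2⟩
    exact h1 s z hz
  have hQ0 : Q (s.zip s) := by
    refine ⟨fun z hz => hsA _ (hzip z hz).2, 1, ⟨fun u v => rfl, fun l => ?_⟩,
      fun z _ => rfl, fun z hz => (hzip z hz).1.symm⟩
    simp
  have hPI : ∀ p, Q p → PI M M p := by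
    rintro p ⟨_, g, hg, _, hp⟩
    refine ⟨fun z hz w hw => ?_, fun z hz w hw => ?_, fun q hq => ?_⟩
    · rw [hp z hz, hp w hw, g.injective.eq_iff]
    · rw [hp z hz, hp w hw]
      exact hg.1 _ _
    · have e1 : q.map Prod.snd = (q.map Prod.fst).map g := by
        rw [List.map_map]
        exact List.map_congr_left fun z hz => hp z (hq z hz)
      rw [e1]
      exact hg.2 _
  obtain ⟨h, hbij, hpi⟩ := hSC2 M M (D ∩ A) D Q (s.zip s) hQ0 hPI
    (by
      rintro p ⟨hpA, g, hg, hgs, hp⟩ c ⟨hcD, hcA⟩
      refine ⟨g c, (hDinv g hg hgs c).1 hcD, ?_, g, hg, hgs, ?_⟩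
      · intro z hz
        rcases List.mem_cons.1 hz with rfl | hz
        · exact hcA
        · exact hpA z hz
      · intro z hz
        rcases List.mem_cons.1 hz with rfl | hz
        · rfl
        · exact hp z hz)
    (by
      rintro p ⟨hpA, g, hg, hgs, hp⟩ d hdD
      set y := g.symm d with hy
      have hgy : g y = d := by rw [hy]; simp
      have hyD : y ∈ D := by
        rw [hDinv g hg hgs y, hgy]
        exact hdD
      by_cases hyA : y ∈ A
      · refine ⟨y, ⟨hyD, hyA⟩, ?_, g, hg, hgs, ?_⟩
        · intro z hz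
          rcases List.mem_cons.1 hz with rfl | hz
          · exact hyA
          · exact hpA z hz
        · intro z hz
          rcases List.mem_cons.1 hz with rfl | hz
          · exact hgy.symm
          · exact hp z hz
      · obtain ⟨y', hy'A, k, hk, hkx, hky⟩ := hconj y hyD hyA (p.map Prod.fst ++ s) (by
          intro z hz
          rcases List.mem_append.1 hz with hz | hz
          · obtain ⟨w, hw, rfl⟩ := List.mem_map.1 hz
            exact hpA w hw
          · exact hsA z hz)
        have hks : ∀ z ∈ s, k z = z := fun z hz => hkx z (List.mem_append.2 (Or.inr hz))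
        have hy'D : y' ∈ D := by
          rw [hDinv k hk hks y', hky]
          exact hyD
        refine ⟨y', ⟨hy'D, hy'A⟩, ?_, g * k, ⟨?_, ?_⟩, ?_, ?_⟩
        · intro z hz
          rcases List.mem_cons.1 hz with rfl | hz
          · exact hy'A
          · exact hpA z hz
        · intro u v
          rw [Equiv.Perm.mul_apply, Equiv.Perm.mul_apply, ← hg.1, ← hk.1]
        · intro l
          have e1 : l.map (g * k) = (l.map k).map g := by
            rw [List.map_map]
            rfl
          rw [e1, ← hg.2, ← hk.2]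
        · intro z hz
          rw [Equiv.Perm.mul_apply, hks z hz, hgs z hz]
        · intro z hz
          rcases List.mem_cons.1 hz with rfl | hz
          · change d = (g * k) y'
            rw [Equiv.Perm.mul_apply, hky, hgy]
          · rw [Equiv.Perm.mul_apply, hkx z.1 (List.mem_append.2 (Or.inl
              (List.mem_map.2 ⟨z, hz, rfl⟩)))]
            exact hp z hz)
  exact ⟨h, rfl, hbij, hpi⟩

end Pool.Agent.HB
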